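import Mathlib
import Pool.Agent.Results.MP_8e9337_gt.DiamondCex
import Pool.Agent.Helper292.ForceCH
import Pool.Agent.U946.DiamondBridge

/-!
# It is consistent with ZFC that a `k`-space `s`-group of countable tightness is not sequential

The forcing language is the one of `Helper292.ForceCH`: a sentence is the set of the conditions
which force it; `DiamondHolds P` is the translation of `PlainDiamond`.
-/

set_option autoImplicit false

namespace Pool.Agent.Results.MP_8e9337_gt.ForcedCounterexample

open Set Filter Topology Cardinal Pool.Agent.Helper292.ForceCH Pool.Agent.U946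

/-- (1) Some forcing notion forces that `ω₁` is preserved and that diamond holds.
(2) Diamond implies that there is a Hausdorff topological group which is an `s`-group (every
Hausdorff group topology in which all its convergent sequences converge is coarser), has countable
tightness, is a `k`-space, and is not sequential. -/
theorem result :
    (∃ (P : Type) (_ : Preorder P), Nonempty P ∧ ∀ p : P,
      p ∈ OmegaOnePreserved P ∧ p ∈ DiamondHolds P) ∧
    (PlainDiamond →
      ∃ (G : Type) (_ : Group G) (τ : TopologicalSpace G), IsTopologicalGroup G ∧ T2Space G ∧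
        (∀ σ : TopologicalSpace G, @IsTopologicalGroup G σ _ → @T2Space G σ →
          (∀ u : ℕ → G, (∃ x : G, Tendsto u atTop (@nhds G τ x)) →
            ∃ y : G, Tendsto u atTop (@nhds G σ y)) → τ ≤ σ) ∧
        (∀ (A : Set G) (x : G), x ∈ closure A → ∃ B ⊆ A, B.Countable ∧ x ∈ closure B) ∧
        (∀ A : Set G, (∀ K : Set G, IsCompact K → IsClosed (A ∩ K)) → IsClosed A) ∧
        ¬ SequentialSpace G) := by
  refine ⟨?_, fun h => ?_⟩
  · obtain ⟨P, i, h1, h2⟩ := exists_forcing
    exact ⟨P, i, h1, fun p => ⟨(h2 p).1, (h2 p).2.1⟩⟩
  · have h1 := DiamondCex.result (diamond_of_plain h)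
    push Not at h1
    exact h1

end Pool.Agent.Results.MP_8e9337_gt.ForcedCounterexample
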